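import Pool.Agent.Q83.BL.Stm

/-!
# Project BL (helper83), job FOU: the Fourier transform turns translations into modulations
-/

set_option autoImplicit false

open MeasureTheory Complex
open scoped ENNReal FourierTransform SchwartzMap RealInnerProductSpace

noncomputable section

namespace Pool.Agent.Q241.BL

open _root_.Q83.BL

variable {l : ℕ}

theorem tf_sub (m n : X l) (f h : HH l) : tf m n (f - h) = tf m n f - tf m n h := by
  refine Lp.ext ?_
  have h1 := coe_tf m n (f - h)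
  have h2 := coe_tf m n f
  have h3 := coe_tf m n h
  have h4 := Lp.coeFn_sub (tf m n f) (tf m n h)
  have h5 : ∀ᵐ x : X l, (f - h : HH l) (x - m) = f (x - m) - h (x - m) :=
    (measurePreserving_sub_right volume m).quasiMeasurePreserving.ae (Lp.coeFn_sub f h)
  filter_upwards [h1, h2, h3, h4, h5] with x e1 e2 e3 e4 e5
  rw [e1, e4, Pi.sub_apply, e2, e3, shift, shift, shift, e5, mul_sub]

theorem norm_tf (m n : X l) (f : HH l) : ‖tf m n f‖ = ‖f‖ := by
  rw [Lp.norm_def, Lp.norm_def]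
  congr 1
  rw [eLpNorm_congr_ae (coe_tf m n f)]
  have h1 : eLpNorm (shift m n f) 2 volume = eLpNorm (fun x => f (x - m)) 2 volume := by
    refine eLpNorm_congr_norm_ae ?_
    filter_upwards with x
    rw [shift, norm_mul, norm_phase, one_mul]
  rw [h1]
  exact eLpNorm_comp_measurePreserving (Lp.aestronglyMeasurable f)
    (measurePreserving_sub_right volume m)

theorem continuous_tf (m n : X l) : Continuous (tf m n : HH l → HH l) := by
  refine (LipschitzWith.of_dist_le_mul (K := 1) fun f h => ?_).continuous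
  rw [dist_eq_norm, dist_eq_norm, ← tf_sub, norm_tf, NNReal.coe_one, one_mul]

theorem tf_schwartz (m : X l) (φ : 𝓢(X l, ℂ)) :
    tf m 0 (φ.toLp 2 : HH l) = ((φ.compSubConstCLM ℂ m).toLp 2 : HH l) := by
  refine Lp.ext ?_
  have h1 := coe_tf m 0 (φ.toLp 2 : HH l)
  have h2 : ∀ᵐ x : X l, (φ.toLp 2 : HH l) (x - m) = φ (x - m) :=
    (measurePreserving_sub_right volume m).quasiMeasurePreserving.ae (φ.coeFn_toLp 2 volume)
  have h3 := (φ.compSubConstCLM ℂ m).coeFn_toLp 2 (volume : Measure (X l))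
  filter_upwards [h1, h2, h3] with x e1 e2 e3
  rw [e1, e3, shift, e2, SchwartzMap.compSubConstCLM_apply]
  simp

theorem fourier_sub (m : X l) (φ : 𝓢(X l, ℂ)) (w : X l) :
    𝓕 (φ.compSubConstCLM ℂ m) w =
      exp (2 * Real.pi * I * ((∑ i, (-m) i * w i : ℝ) : ℂ)) * 𝓕 φ w := by
  rw [SchwartzMap.fourier_coe, SchwartzMap.fourier_coe, Real.fourier_eq', Real.fourier_eq']
  have h1 : ∫ v : X l, exp ((↑(-2 * Real.pi * ⟪v, w⟫) * I)) • (φ.compSubConstCLM ℂ m) v =
      ∫ v : X l, (fun u : X l => exp ((↑(-2 * Real.pi * ⟪u + m, w⟫) * I)) • φ u) (v - m) := by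
    congr 1
    ext v
    rw [SchwartzMap.compSubConstCLM_apply]
    simp only [sub_add_cancel]
  rw [h1, integral_sub_right_eq_self
    (fun u : X l => exp ((↑(-2 * Real.pi * ⟪u + m, w⟫) * I)) • φ u) m, ← integral_const_mul]
  congr 1
  ext v
  rw [smul_eq_mul, smul_eq_mul, ← mul_assoc, ← Complex.exp_add]
  congr 2
  rw [inner_add_left, PiLp.inner_apply (x := m)]
  have h2 : ∑ i, ⟪m i, w i⟫ = ∑ i, m i * w i := by
    refine Finset.sum_congr rfl fun i _ => ?_
    simp [mul_comm]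
  have h3 : ∑ i, (-m) i * w i = - ∑ i, m i * w i := by
    rw [← Finset.sum_neg_distrib]
    refine Finset.sum_congr rfl fun i _ => ?_
    simp
  rw [h2, h3]
  push_cast
  ring

theorem t_FOU : _root_.Q83.BL.S_FOU := by
  intro l m f
  refine DenseRange.induction_on (p := fun f : HH l => 𝓕 (tf m 0 f : HH l) = tf 0 (-m) (𝓕 f : HH l))
    (SchwartzMap.denseRange_toLpCLM (E := X l) (F := ℂ) (p := 2) (μ := volume)
      ENNReal.ofNat_ne_top) f ?_ ?_
  · have hF : Continuous (fun f : HH l => (𝓕 f : HH l)) :=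
      (Lp.fourierTransformₗᵢ (X l) ℂ).continuous
    exact isClosed_eq (hF.comp (continuous_tf m 0)) ((continuous_tf 0 (-m)).comp hF)
  · intro φ
    show 𝓕 (tf m 0 (φ.toLp 2 : HH l) : HH l) = tf 0 (-m) (𝓕 (φ.toLp 2 : HH l) : HH l)
    rw [tf_schwartz, SchwartzMap.toLp_fourier_eq, SchwartzMap.toLp_fourier_eq]
    refine Lp.ext ?_
    have h1 := (𝓕 (φ.compSubConstCLM ℂ m)).coeFn_toLp 2 (volume : Measure (X l))
    have h2 := coe_tf 0 (-m) ((𝓕 φ).toLp 2 : HH l)
    have h3 := (𝓕 φ).coeFn_toLp 2 (volume : Measure (X l))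
    filter_upwards [h1, h2, h3] with w e1 e2 e3
    rw [e1, e2, shift, sub_zero, e3]
    exact fourier_sub m φ w

end Pool.Agent.Q241.BL
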