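import Pool.Agent.Q83.BL.Stm

/-!
# Project BL (helper83), job TOR: the torus as the spectral picture
-/

set_option autoImplicit false

open MeasureTheory Complex UnitAddTorus

noncomputable section

namespace Pool.Agent.Q241.BL

local instance : MeasureSpace UnitAddCircle := ⟨AddCircle.haarAddCircle⟩

local instance : Measure.IsAddHaarMeasure (volume : Measure UnitAddCircle) :=
  inferInstanceAs (Measure.IsAddHaarMeasure AddCircle.haarAddCircle)

local instance : IsProbabilityMeasure (volume : Measure UnitAddCircle) :=
  inferInstanceAs (IsProbabilityMeasure AddCircle.haarAddCircle)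

variable {d : Type} [Fintype d]

/-- the translation -/
def tr (a : d → ℝ) : UnitAddTorus d ≃ᵐ UnitAddTorus d :=
  MeasurableEquiv.addRight (fun j => ((a j : ℝ) : UnitAddCircle))

theorem tr_apply (a : d → ℝ) (z : UnitAddTorus d) :
    tr a z = z + fun j => ((a j : ℝ) : UnitAddCircle) := rfl

theorem fourier_shift (n : ℤ) (x : UnitAddCircle) (a : ℝ) :
    fourier n (x + (a : UnitAddCircle)) = exp (2 * Real.pi * I * ((n : ℝ) * a : ℝ)) * fourier n x := by
  rw [fourier_apply, smul_add, AddCircle.toCircle_add, Circle.coe_mul, ← fourier_apply,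
    ← fourier_apply, fourier_coe_apply, mul_comm]
  congr 2
  push_cast
  ring

theorem mFourier_shift (n : d → ℤ) (z : UnitAddTorus d) (a : d → ℝ) :
    mFourier n (tr a z) = exp (2 * Real.pi * I * ((∑ j, (n j : ℝ) * a j : ℝ) : ℂ)) * mFourier n z := by
  rw [tr_apply]
  show ∏ i, fourier (n i) (z i + (a i : UnitAddCircle)) = _ * ∏ i, fourier (n i) (z i)
  simp_rw [fourier_shift]
  rw [Finset.prod_mul_distrib, ← exp_sum]
  congr 2
  push_cast
  rw [Finset.mul_sum]

theorem t_TOR : _root_.Q83.BL.S_TOR := by
  intro d _
  refine ⟨UnitAddTorus d, inferInstance, volume, inferInstance, fun n => mFourier n, mFourierBasis,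
    tr, fun n => (mFourier n).continuous.measurable, ?_, ?_, ?_, ?_, ?_⟩
  · intro n z
    show ‖∏ i, fourier (n i) (z i)‖ = 1
    rw [norm_prod]
    exact Finset.prod_eq_one fun i _ => by rw [fourier_apply]; exact Circle.norm_coe _
  · intro m n z
    exact mFourier_add
  · intro n
    rw [coe_mFourierBasis]
    exact coeFn_mFourierLp 2 n
  · intro a
    exact measurePreserving_add_right _ _
  · intro a n z
    exact mFourier_shift n z a

end Pool.Agent.Q241.BL
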